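import Mathlib
import Pool.Agent.TH648.ED.Win

set_option autoImplicit false

/-!
# The Segre-Harbourne-Gimigliano-Hirschowitz conjecture for arbitrary multiplicities, every `n`

For every `n`, every vector of multiplicities `m` and general points of the complex projective
plane the linear system `|d H - m 0 E 0 - ⋯|` has the expected dimension

* in EVERY degree, if `n ≥ 37` and, for some `u ≥ n / 2`, all `m i` are at most `u + 1` and
  `12 ∑ |m i - u| + 6 #{i | m i < u} + 22 ≤ 7 √n`;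

and, for every vector `m`, in each of the ranges

* `√N (3 d - ∑_S m i) < √(9 - |S|) ∑_T m i` for some disjoint sets `S`, `T` of points with
  `|S| ≤ 8` and `N = |T| ≥ 9 - |S|`;
* the same range with a real `N ≥ 9 - |S|` (in the form `K = √(N (9 - |S|))`);
* `∑_T m i ≥ N (N / 2 + 2)` and `√N (d + 11 / 6) + 9 / 8 < ∑_T m i + N / 2` for some `T` with
  `N = |T| ≥ 10`;
* `∑ m i + q < R d` and `c + R ^ 2 (M - 1) + q < R d`, where `m i ≤ M` for all `i`, `c` is the
  number of the `i` with `m i = M`, `R ≥ 3` is real and `q = R ^ 2 - 3 R`, or `R ^ 2 ≥ 10` is an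
  integer and `q = R ^ 2 / 2 - 7 R / 6 + 1 / 8`.
-/

namespace Pool.Agent.Results.MP_6e81d8_ag.ArbitraryMultiplicitiesSharp

/-- The vector space of the forms of degree `d` in three variables over `ℂ` with multiplicity at
least `m i` at the point `(P i 0 : P i 1 : 1)` for every `i`. -/
noncomputable def forms {n : ℕ} (P : Fin n → Fin 2 → ℂ) (d : ℕ) (m : Fin n → ℕ) :
    Submodule ℂ (MvPolynomial (Fin 3) ℂ) :=
  MvPolynomial.homogeneousSubmodule (Fin 3) ℂ d ⊓
    Submodule.restrictScalars ℂ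
      (⨅ i : Fin n,
        (Ideal.span
          ({MvPolynomial.X 0 - MvPolynomial.C (P i 0) * MvPolynomial.X 2,
            MvPolynomial.X 1 - MvPolynomial.C (P i 1) * MvPolynomial.X 2} :
            Set (MvPolynomial (Fin 3) ℂ))) ^ (m i))

/-- The projective dimension of the linear system `|d H - m 0 E 0 - ⋯|`. -/
noncomputable def dim {n : ℕ} (P : Fin n → Fin 2 → ℂ) (d : ℕ) (m : Fin n → ℕ) : ℤ :=
  (Module.finrank ℂ ↥(forms P d m) : ℤ) - 1

/-- The virtual dimension. -/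
def vdim {n : ℕ} (d : ℕ) (m : Fin n → ℕ) : ℤ :=
  ((d + 2).choose 2 : ℤ) - 1 - ∑ i, ((m i + 1).choose 2 : ℤ)

/-- The expected dimension. -/
def edim {n : ℕ} (d : ℕ) (m : Fin n → ℕ) : ℤ := max (vdim d m) (-1)

theorem result {n : ℕ} (m : Fin n → ℕ) :
    ∃ F : MvPolynomial (Fin n × Fin 2) ℂ, F ≠ 0 ∧
      ∀ P : Fin n → Fin 2 → ℂ,
        MvPolynomial.eval (fun ij : Fin n × Fin 2 => P ij.1 ij.2) F ≠ 0 →
        ∀ d : ℕ,
          ((37 ≤ n ∧ ∃ u : ℕ, n ≤ 2 * u ∧ (∀ i, m i ≤ u + 1) ∧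
              12 * ∑ i, |(m i : ℝ) - u| +
                6 * ((Finset.univ.filter fun i => m i < u).card : ℝ) + 22 ≤ 7 * √(n : ℝ)) ∨
            (∃ S T : Finset (Fin n), Disjoint S T ∧ S.card ≤ 8 ∧ 9 ≤ S.card + T.card ∧
              √(T.card : ℝ) * (3 * d - ∑ i ∈ S, (m i : ℝ)) <
                √(9 - (S.card : ℝ)) * ∑ i ∈ T, (m i : ℝ)) ∨
            (∃ S : Finset (Fin n), S.card ≤ 8 ∧ ∃ K : ℝ, 9 - (S.card : ℝ) ≤ K ∧
              ∀ k : ℕ, K * k ≤ 3 * d - ((∑ i ∈ S, m i : ℕ) : ℝ) →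
                K * (3 * d - ((∑ i ∈ S, m i : ℕ) : ℝ) - K * k) <
                  (9 - (S.card : ℝ)) * ((∑ i ∈ Finset.univ \ S, (m i - k) : ℕ) : ℝ)) ∨
            (∃ T : Finset (Fin n), 10 ≤ T.card ∧
              (T.card : ℝ) * ((T.card : ℝ) / 2 + 2) ≤ ∑ i ∈ T, (m i : ℝ) ∧
              √(T.card : ℝ) * (d + 11 / 6) + 9 / 8 <
                ∑ i ∈ T, (m i : ℝ) + (T.card : ℝ) / 2) ∨
            ∃ (R q : ℝ) (M : ℕ), 3 ≤ R ∧
              (q = R ^ 2 - 3 * R ∨
                q = R ^ 2 / 2 - 7 * R / 6 + 1 / 8 ∧ ∃ N : ℕ, 10 ≤ N ∧ R ^ 2 = N) ∧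
              (∀ i, m i ≤ M) ∧ ∑ i, (m i : ℝ) + q < R * d ∧
              ((Finset.univ.filter fun i => m i = M).card : ℝ) + R ^ 2 * ((M : ℝ) - 1) + q <
                R * d) →
          dim P d m = edim d m := by
  obtain ⟨F, hF, hF'⟩ := TH648.ED.expDim_full m ℂ
  refine ⟨F.map (algebraMap ℚ ℂ), H932R3.map_ne_zero_of hF, fun P hP d hd => ?_⟩
  rw [MvPolynomial.eval_map] at hP
  have hd' : TH648.ED.Close m ∨ (TH648.SH.Above m d ∨ TH648.ED.Above2 m d) ∨
      (TH648.SH.Below m d ∨ TH648.ED.Below2 m d) := by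
    rcases hd with ⟨h1, u, h2, h3, h4⟩ | ⟨S, T, h1, h2, h3, h4⟩ | h | h |
      ⟨R, q, M, h1, hq, h2, h3, h4⟩
    · exact Or.inl ⟨u, h1, h2, h3, h4⟩
    · exact Or.inr (Or.inl (Or.inl (TH648.SH.above_of_sets h1 h2 h3 h4)))
    · exact Or.inr (Or.inl (Or.inl h))
    · exact Or.inr (Or.inl (Or.inr h))
    · rcases hq with rfl | ⟨rfl, N, hN, hRN⟩
      · refine Or.inr (Or.inr (Or.inl (TH648.SH.below_of_max h1 h2 ?_ ?_)))
        · linarith
        · linarith
      · have hR : √(N : ℝ) = R := by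
          rw [← hRN]
          exact Real.sqrt_sq (by linarith)
        rw [hRN] at h3 h4
        refine Or.inr (Or.inr (Or.inr ⟨N, M, hN, h2, ?_, ?_⟩))
        · rw [hR]
          linarith
        · rw [hR]
          linarith
  have h1 : Module.finrank ℂ ↥(forms P d m) =
      Nat.choose (d + 2) 2 - ∑ i, Nat.choose (m i + 1) 2 := hF' P hP d hd'
  have h2 : ∑ i, ((m i + 1).choose 2 : ℤ) = ((∑ i, Nat.choose (m i + 1) 2 : ℕ) : ℤ) := by
    push_cast
    rfl
  unfold dim edim vdim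
  rw [h1, h2]
  omega

end Pool.Agent.Results.MP_6e81d8_ag.ArbitraryMultiplicitiesSharp
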