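import Mathlib
import Pool.Agent.TH745.MN.Calc

set_option autoImplicit false

/-!
# The Segre-Harbourne-Gimigliano-Hirschowitz conjecture: blocks, clusters, doubling

For every vector of multiplicities `m` and general points of the complex projective plane the
linear system `|d H - m 0 E 0 - ⋯|` has the expected dimension in every degree `d` in which
`E = Decided false` (emptiness) or `I = Decided true` (independence) holds for the multiset
`M` of the multiplicities.  These are the least relations with: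
* blocks (`EmptyRange`, `IndepRange`): `M` is (for `E`: contains) the sum of `r < K ^ 2`
  multisets whose sums and sizes satisfy an inequality, which for blocks of equal
  multiplicities is sharp up to a bounded shift of `d`;
* clusters: a member `b` is replaced by the four numbers `⌊(2 b + j) / 4⌋`, `j = -1, 0, 1, 2`;
* doubling: `I` for `M + a {b}` and `E` for `M + a {b + 1}` in degree `d` decide the degree `d`
  for `M + a {⌊b / 2⌋, ⌊b / 2⌋, ⌊(b + 1) / 2⌋, ⌊(b + 1) / 2⌋}`;
* monotonicity.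
-/

namespace Pool.Agent.Results.MP_6e81d8_ag.BlockWindow

/-- The vector space of the forms of degree `d` in three variables over `ℂ` with multiplicity at
least `m i` at the point `(P i 0 : P i 1 : 1)` for every `i`. -/
noncomputable def forms {n : ℕ} (P : Fin n → Fin 2 → ℂ) (d : ℕ) (m : Fin n → ℕ) :
    Submodule ℂ (MvPolynomial (Fin 3) ℂ) :=
  MvPolynomial.homogeneousSubmodule (Fin 3) ℂ d ⊓
    Submodule.restrictScalars ℂ
      (⨅ i : Fin n,
        (Ideal.span
          ({MvPolynomial.X 0 - MvPolynomial.C (P i 0) * MvPolynomial.X 2,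
            MvPolynomial.X 1 - MvPolynomial.C (P i 1) * MvPolynomial.X 2} :
            Set (MvPolynomial (Fin 3) ℂ))) ^ (m i))

/-- The projective dimension of the linear system `|d H - m 0 E 0 - ⋯|`. -/
noncomputable def dim {n : ℕ} (P : Fin n → Fin 2 → ℂ) (d : ℕ) (m : Fin n → ℕ) : ℤ :=
  (Module.finrank ℂ ↥(forms P d m) : ℤ) - 1

/-- The virtual dimension. -/
def vdim {n : ℕ} (d : ℕ) (m : Fin n → ℕ) : ℤ :=
  ((d + 2).choose 2 : ℤ) - 1 - ∑ i, ((m i + 1).choose 2 : ℤ)

/-- The expected dimension. -/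
def edim {n : ℕ} (d : ℕ) (m : Fin n → ℕ) : ℤ := max (vdim d m) (-1)

/-- The number of conditions of the multiplicities in `M`. -/
def cond (M : Multiset ℕ) : ℕ := (M.map fun x => (x + 1).choose 2).sum

/-- For some `K ≥ 2` and `r < K ^ 2` the multiset `M` contains the sum of multisets `A i`,
`i < r`, with `d < 2 K S i` for all `i` and `d ^ 2 < ∑ min (S i ^ 2 / N i) (S i d / (2 K))`,
where `S i` is the sum of `A i` and `N i` its size. -/
def EmptyRange (M : Multiset ℕ) (d : ℕ) : Prop :=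
  ∃ (K r : ℕ) (A : Fin r → Multiset ℕ), 2 ≤ K ∧ r < K ^ 2 ∧ ∑ i, A i ≤ M ∧
    (∀ i, d < 2 * K * (A i).sum) ∧
    (d : ℝ) ^ 2 < ∑ i, min (((A i).sum : ℝ) ^ 2 / (A i).card) (((A i).sum : ℝ) * d / (2 * K))

/-- For some `K ≥ 2` and `r < K ^ 2` the multiset `M` is the sum of multisets `A i`, `i < r`,
and for some `u i` not smaller than the members of `A i`, reals `t i > 1` and
`b i ≥ S i + t i`, `b i ≥ t i u i + (multiplicity of u i in A i)`, and
`R = e + 3 - 1 / (2 K)` for some `e ≤ d` with `(e + 3) mod 2 K ≤ K`: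
`2 K b i < t i R` for all `i`, and `∑ max (R / (2 K)) (b i) ^ 2 / t i < R ^ 2`. -/
def IndepRange (M : Multiset ℕ) (d : ℕ) : Prop :=
  ∃ (K r : ℕ) (A : Fin r → Multiset ℕ) (u : Fin r → ℕ) (t b : Fin r → ℝ) (e : ℕ),
    2 ≤ K ∧ r < K ^ 2 ∧ ∑ i, A i = M ∧ e ≤ d ∧ (e + 3) % (2 * K) ≤ K ∧
    (∀ i, ∀ a ∈ A i, a ≤ u i) ∧
    (∀ i, 1 < t i ∧ ((A i).sum : ℝ) + t i ≤ b i ∧
      ((A i).count (u i) : ℝ) + t i * u i ≤ b i ∧
      2 * K * b i < t i * ((e : ℝ) + 3 - 1 / (2 * K))) ∧
    ∑ i, max (((e : ℝ) + 3 - 1 / (2 * K)) / (2 * K)) (b i) ^ 2 / t i <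
        ((e : ℝ) + 3 - 1 / (2 * K)) ^ 2

/-- The relations `E = Decided false` and `I = Decided true`. -/
inductive Decided : Bool → Multiset ℕ → ℕ → Prop
  /-- (1) -/
  | blockE {M : Multiset ℕ} {d : ℕ} (h : EmptyRange M d) : Decided false M d
  /-- (2) -/
  | blockI {M : Multiset ℕ} {d : ℕ} (h : IndepRange M d) : Decided true M d
  /-- (3), exact clusters -/
  | cluster {s : Bool} {M : Multiset ℕ} {b d : ℕ} (hb : 1 ≤ b) (h : Decided s (M + {b}) d) :
      Decided s
        (M + ({(2 * b - 1) / 4} + {2 * b / 4} + {(2 * b + 1) / 4} + {(2 * b + 2) / 4})) d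
  /-- (4), doubling, emptiness -/
  | doubleE {M : Multiset ℕ} {a b d : ℕ} (ha : 0 < a) (h1 : Decided true (M + a • {b}) d)
      (h2 : Decided false (M + a • {b + 1}) d)
      (h : (d + 2).choose 2 ≤
        cond (M + a • ({b / 2} + {b / 2} + {(b + 1) / 2} + {(b + 1) / 2}))) :
      Decided false (M + a • ({b / 2} + {b / 2} + {(b + 1) / 2} + {(b + 1) / 2})) d
  /-- (4), doubling, independence -/
  | doubleI {M : Multiset ℕ} {a b d : ℕ} (ha : 0 < a) (h1 : Decided true (M + a • {b}) d)
      (h2 : Decided false (M + a • {b + 1}) d)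
      (h : cond (M + a • ({b / 2} + {b / 2} + {(b + 1) / 2} + {(b + 1) / 2})) ≤
        (d + 2).choose 2) :
      Decided true (M + a • ({b / 2} + {b / 2} + {(b + 1) / 2} + {(b + 1) / 2})) d
  /-- (5), emptiness for larger multiplicities and smaller degrees -/
  | monoE {M : Multiset ℕ} {b b' d d' : ℕ} (h : Decided false (M + {b}) d') (hb : b ≤ b')
      (hd : d ≤ d') : Decided false (M + {b'}) d
  /-- (5), independence for smaller multiplicities and larger degrees -/
  | monoI {M : Multiset ℕ} {b b' d d' : ℕ} (h : Decided true (M + {b'}) d') (hb : b ≤ b')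
      (hd : d' ≤ d) : Decided true (M + {b}) d
  /-- (5), a zero may be dropped -/
  | zero {s : Bool} {M : Multiset ℕ} {d : ℕ} (h : Decided s (M + {0}) d) : Decided s M d
  /-- (5), a zero may be added -/
  | zero' {s : Bool} {M : Multiset ℕ} {d : ℕ} (h : Decided s M d) : Decided s (M + {0}) d

theorem Decided.dec {s : Bool} {M : Multiset ℕ} {d : ℕ} (h : Decided s M d) :
    Pool.Agent.TH745.MN.Dec s M d := by
  induction h with
  | blockE h => exact .blkE h
  | blockI h => exact .blkI h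
  | cluster hb _ ih => exact .four hb ih
  | doubleE ha _ _ h ih1 ih2 => exact .dblE ha ih1 ih2 h
  | doubleI ha _ _ h ih1 ih2 => exact .dblI ha ih1 ih2 h
  | monoE _ hb hd ih => exact .monoE ih hb hd
  | monoI _ hb hd ih => exact .monoI ih hb hd
  | zero _ ih => exact .zero ih
  | zero' _ ih => exact .zero' ih

theorem result {n : ℕ} (m : Fin n → ℕ) :
    ∃ F : MvPolynomial (Fin n × Fin 2) ℂ, F ≠ 0 ∧
      ∀ P : Fin n → Fin 2 → ℂ,
        MvPolynomial.eval (fun ij : Fin n × Fin 2 => P ij.1 ij.2) F ≠ 0 →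
        ∀ (d : ℕ) (s : Bool), Decided s (Finset.univ.val.map m) d →
          dim P d m = edim d m := by
  obtain ⟨F, hF, hF'⟩ := Pool.Agent.TH745.MN.expDim_dec m
  refine ⟨F.map (algebraMap ℚ ℂ), H932R3.map_ne_zero_of hF, fun P hP d s hd => ?_⟩
  rw [MvPolynomial.eval_map] at hP
  have h1 : Module.finrank ℂ ↥(forms P d m) =
      Nat.choose (d + 2) 2 - ∑ i, Nat.choose (m i + 1) 2 := hF' P hP d ⟨s, hd.dec⟩
  have h2 : ∑ i, ((m i + 1).choose 2 : ℤ) = ((∑ i, Nat.choose (m i + 1) 2 : ℕ) : ℤ) := by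
    push_cast
    rfl
  unfold dim edim vdim
  rw [h1, h2]
  omega

end Pool.Agent.Results.MP_6e81d8_ag.BlockWindow
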