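import Pool.Agent.TH167.CL.SuperC
import Pool.Agent.TH167.SH.Conv
import Pool.Agent.TH167.SH.Fam

set_option autoImplicit false

/-!
# A linear bound for the superabundance of classes with an irreducible member

For very general points `p 1, …, p r` of the complex projective plane, every class
`D = (d; m 1, …, m r)` with a member given by an irreducible form, and every set `S` of indices
satisfy `2 (dim D - vdim D) ≤ 2 ∑ (m i - 2)⁺ + (∑ m i + 2 - 3 d)⁺`, the first sum over the indices
outside `S`, the second one over the indices in `S`, as soon as some `m i` with `i` outside `S` is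
positive, or `dim D` is positive, or the sum of the `m i`, `i ∈ S`, is less than `3 d`.
-/

namespace Pool.Agent.Results.MP_6e81d8_ag.CliffordSuperabundance

open Pool.Agent.TH167

theorem result (s : ℕ) : ∃ Z : ℕ → MvPolynomial (Fin s × Fin 2) ℂ, (∀ n, Z n ≠ 0) ∧
    ∀ P : Fin s → Fin 2 → ℂ,
      (∀ n, MvPolynomial.eval (fun ij : Fin s × Fin 2 => P ij.1 ij.2) (Z n) ≠ 0) →
      ∀ (m : Fin s → ℕ) (d : ℕ) (S : Finset (Fin s)),
        (∃ F ∈ MvPolynomial.homogeneousSubmodule (Fin 3) ℂ d ⊓
              Submodule.restrictScalars ℂ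
                (⨅ i : Fin s,
                  (Ideal.span
                    ({MvPolynomial.X 0 - MvPolynomial.C (P i 0) * MvPolynomial.X 2,
                      MvPolynomial.X 1 - MvPolynomial.C (P i 1) * MvPolynomial.X 2} :
                      Set (MvPolynomial (Fin 3) ℂ))) ^ (m i)), Irreducible F) →
        (∑ i ∈ S, m i < 3 * d ∨ (∃ i, i ∉ S ∧ 1 ≤ m i) ∨
          2 ≤ Module.finrank ℂ
            ↥(MvPolynomial.homogeneousSubmodule (Fin 3) ℂ d ⊓
              Submodule.restrictScalars ℂ
                (⨅ i : Fin s,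
                  (Ideal.span
                    ({MvPolynomial.X 0 - MvPolynomial.C (P i 0) * MvPolynomial.X 2,
                      MvPolynomial.X 1 - MvPolynomial.C (P i 1) * MvPolynomial.X 2} :
                      Set (MvPolynomial (Fin 3) ℂ))) ^ (m i)))) →
          2 * Module.finrank ℂ
            ↥(MvPolynomial.homogeneousSubmodule (Fin 3) ℂ d ⊓
              Submodule.restrictScalars ℂ
                (⨅ i : Fin s,
                  (Ideal.span
                    ({MvPolynomial.X 0 - MvPolynomial.C (P i 0) * MvPolynomial.X 2,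
                      MvPolynomial.X 1 - MvPolynomial.C (P i 1) * MvPolynomial.X 2} :
                      Set (MvPolynomial (Fin 3) ℂ))) ^ (m i)))
            + 2 * ∑ i : Fin s, Nat.choose (m i + 1) 2 ≤
              2 * Nat.choose (d + 2) 2 + 2 * ∑ i : Fin s, (if i ∈ S then 0 else m i - 2) +
                (∑ i ∈ S, m i + 2 - 3 * d) := by
  obtain ⟨Z, hZ, h⟩ := SH.exists_fam (Fin s × Fin 2)
  refine ⟨Z, hZ, fun P hP m d S hF hc => ?_⟩
  have h0 := SH.sys_eq P d m
  unfold SHDefs.sys SHDefs.pt at h0
  rw [h0] at hF hc ⊢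
  obtain ⟨F, hF1, hF2⟩ := hF
  rcases hc with hc | hc
  · have h1 := T3.boundG ((h _).1 hP) S hc hF1 hF2
    rw [SH.chi_cast] at h1
    omega
  · have h1 := CL.halfG ((h _).1 hP) S hF1 hF2 hc
    rw [SH.chi_cast] at h1
    omega

end Pool.Agent.Results.MP_6e81d8_ag.CliffordSuperabundance
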